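import Mathlib

/-!
# Polynomial Poisson algebras, Poisson centre, rank and log-ozone group
-/

open MvPolynomial TensorProduct

noncomputable section

universe u

namespace Q16.Loz

/-- A Poisson bracket on the polynomial algebra `k[x_0, …, x_{n-1}]`: a `k`-bilinear map which is
alternating, satisfies the Jacobi identity and is a derivation in the second argument (hence also
in the first). -/
structure PoissonBracket (k : Type u) [Field k] (n : ℕ) where
  br : MvPolynomial (Fin n) k →ₗ[k] MvPolynomial (Fin n) k →ₗ[k] MvPolynomial (Fin n) k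
  alt : ∀ a, br a a = 0
  jacobi : ∀ a b c, br a (br b c) + br b (br c a) + br c (br a b) = 0
  leibniz : ∀ a b c, br a (b * c) = br a b * c + b * br a c

variable {k : Type u} [Field k] {n : ℕ}

theorem PoissonBracket.antisymm (B : PoissonBracket k n) (a b : MvPolynomial (Fin n) k) :
    B.br a b = -B.br b a := by
  have h := B.alt (a + b)
  rw [map_add, map_add, LinearMap.add_apply, LinearMap.add_apply, B.alt, B.alt, zero_add,
    add_zero] at h
  exact eq_neg_of_add_eq_zero_right h

/-- The bracket has degree `0`: `{P_i, P_j} ⊆ P_{i+j}`. -/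
def PoissonBracket.IsGraded (B : PoissonBracket k n) : Prop :=
  ∀ (i j : ℕ) (f g : MvPolynomial (Fin n) k), f.IsHomogeneous i → g.IsHomogeneous j →
    (B.br f g).IsHomogeneous (i + j)

/-- The Poisson centre `{z | {z, a} = 0 for all a}`. -/
def PoissonBracket.center (B : PoissonBracket k n) : Subalgebra k (MvPolynomial (Fin n) k) where
  carrier := {z | ∀ a, B.br z a = 0}
  mul_mem' := by
    intro x y hx hy a
    have hx' := hx a
    have hy' := hy a
    rw [B.antisymm, neg_eq_zero] at hx' hy' ⊢
    rw [B.leibniz, hx', hy', zero_mul, mul_zero, add_zero]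
  add_mem' := by
    intro x y hx hy a
    rw [map_add, LinearMap.add_apply, hx a, hy a, add_zero]
  algebraMap_mem' := by
    intro r a
    have h1 : B.br a 1 = 0 := by
      have h := B.leibniz a 1 1
      rw [mul_one, mul_one, one_mul] at h
      exact left_eq_add.1 h
    rw [B.antisymm, Algebra.algebraMap_eq_smul_one, map_smul, h1, smul_zero, neg_zero]

/-- The rank of the polynomial algebra over the Poisson centre `Z`: the dimension of
`Q ⊗_Z P` over `Q = Frac Z`. -/
def PoissonBracket.rankOverCenter (B : PoissonBracket k n) : Cardinal.{u} :=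
  Module.rank (FractionRing B.center) (FractionRing B.center ⊗[B.center] MvPolynomial (Fin n) k)

/-- `f` is Poisson normal: `{a, f} ∈ f P` for all `a`. -/
def PoissonBracket.IsPoissonNormal (B : PoissonBracket k n) (f : MvPolynomial (Fin n) k) : Prop :=
  ∀ a, f ∣ B.br a f

/-- `δ` is the log-ozone derivation `f⁻¹ {-, f}` of the nonzero Poisson normal element `f`. -/
def PoissonBracket.IsLogOzone (B : PoissonBracket k n)
    (δ : Derivation k (MvPolynomial (Fin n) k) (MvPolynomial (Fin n) k))
    (f : MvPolynomial (Fin n) k) : Prop :=
  f ≠ 0 ∧ B.IsPoissonNormal f ∧ ∀ a, f * δ a = B.br a f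

/-- The log-ozone group: the additive group of derivations generated by the log-ozone
derivations. -/
def PoissonBracket.loz (B : PoissonBracket k n) :
    AddSubgroup (Derivation k (MvPolynomial (Fin n) k) (MvPolynomial (Fin n) k)) :=
  AddSubgroup.closure {δ | ∃ f, B.IsLogOzone δ f}

end Q16.Loz
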