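import Pool.Agent.Q16.Loz.Defs

/-!
# A graded polynomial Poisson algebra in four variables
-/

open MvPolynomial TensorProduct

noncomputable section

universe u

namespace Q16.Loz

variable (k : Type u) [Field k]

/-- Polynomials in four variables. -/
abbrev P4 : Type u := MvPolynomial (Fin 4) k

abbrev x : P4 k := X 0
abbrev y : P4 k := X 1
abbrev z : P4 k := X 2
abbrev w : P4 k := X 3

/-- The quadratic vector field `x(y+z-x)∂x + y(x+z-y)∂y + z(x+y-z)∂z`. -/
def D : Derivation k (P4 k) (P4 k) :=
  (x k * (y k + z k - x k)) • pderiv 0 + (y k * (x k + z k - y k)) • pderiv 1 +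
    (z k * (x k + y k - z k)) • pderiv 2

/-- The derivation with respect to the last variable. -/
def W : Derivation k (P4 k) (P4 k) := pderiv 3

variable {k}

theorem D_apply (f : P4 k) : D k f = x k * (y k + z k - x k) * pderiv 0 f +
    y k * (x k + z k - y k) * pderiv 1 f + z k * (x k + y k - z k) * pderiv 2 f := rfl

theorem D_x : D k (x k) = x k * (y k + z k - x k) := by
  rw [D_apply]; simp [pderiv_X]
theorem D_y : D k (y k) = y k * (x k + z k - y k) := by
  rw [D_apply]; simp [pderiv_X]
theorem D_z : D k (z k) = z k * (x k + y k - z k) := by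
  rw [D_apply]; simp [pderiv_X]
theorem D_w : D k (w k) = 0 := by
  rw [D_apply]; simp [pderiv_X]
theorem W_x : W k (x k) = 0 := by simp [W, pderiv_X]
theorem W_y : W k (y k) = 0 := by simp [W, pderiv_X]
theorem W_z : W k (z k) = 0 := by simp [W, pderiv_X]
theorem W_w : W k (w k) = 1 := by simp [W, pderiv_X]

/-- `D` and `W` commute. -/
theorem comm (f : P4 k) : D k (W k f) = W k (D k f) := by
  have h : ⁅D k, W k⁆ = 0 := by
    apply MvPolynomial.derivation_ext
    intro i
    rw [Derivation.commutator_apply, Derivation.zero_apply]
    fin_cases i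
    · change D k (W k (x k)) - W k (D k (x k)) = 0
      rw [W_x, D_x, map_zero, Derivation.leibniz, map_sub, map_add, W_x, W_y, W_z]; simp
    · change D k (W k (y k)) - W k (D k (y k)) = 0
      rw [W_y, D_y, map_zero, Derivation.leibniz, map_sub, map_add, W_x, W_y, W_z]; simp
    · change D k (W k (z k)) - W k (D k (z k)) = 0
      rw [W_z, D_z, map_zero, Derivation.leibniz, map_sub, map_add, W_x, W_y, W_z]; simp
    · change D k (W k (w k)) - W k (D k (w k)) = 0
      rw [W_w, D_w, map_zero, Derivation.map_one_eq_zero]; simp
  have h1 := congrArg (fun d : Derivation k (P4 k) (P4 k) => d f) h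
  simp only [Derivation.commutator_apply, Derivation.zero_apply] at h1
  exact sub_eq_zero.1 h1

/-- The bracket `{f, g} = W(f) D(g) - D(f) W(g)`. -/
def brFun (f g : P4 k) : P4 k := W k f * D k g - D k f * W k g

/-- The Poisson bracket. -/
def B (k : Type u) [Field k] : PoissonBracket k 4 where
  br := LinearMap.mk₂ k brFun
    (by intro a b c; simp only [brFun, map_add]; ring)
    (by intro r a b; simp only [brFun, Derivation.map_smul, smul_sub, smul_mul_assoc])
    (by intro a b c; simp only [brFun, map_add]; ring)
    (by intro r a b; simp only [brFun, Derivation.map_smul, smul_sub, mul_smul_comm])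
  alt a := by
    change brFun a a = 0
    simp only [brFun]; ring
  jacobi a b c := by
    change brFun a (brFun b c) + brFun b (brFun c a) + brFun c (brFun a b) = 0
    simp only [brFun, map_sub, Derivation.leibniz, smul_eq_mul, comm]
    ring
  leibniz a b c := by
    change brFun a (b * c) = brFun a b * c + b * brFun a c
    simp only [brFun, Derivation.leibniz, smul_eq_mul]
    ring

theorem B_apply (f g : P4 k) : (B k).br f g = W k f * D k g - D k f * W k g := rfl

theorem pderiv_zero_of_deg_zero {f : P4 k} (h : f.IsHomogeneous 0) (i : Fin 4) :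
    pderiv i f = 0 := by
  have h1 : f.totalDegree = 0 := by
    by_cases hf : f = 0
    · simp [hf]
    · exact h.totalDegree hf
  rw [totalDegree_eq_zero_iff_eq_C] at h1
  rw [h1, pderiv_C]

theorem D_homog {i : ℕ} {f : P4 k} (h : f.IsHomogeneous i) : (D k f).IsHomogeneous (i + 1) := by
  rcases i with _ | i
  · rw [D_apply, pderiv_zero_of_deg_zero h, pderiv_zero_of_deg_zero h, pderiv_zero_of_deg_zero h]
    simp only [mul_zero, add_zero]
    exact isHomogeneous_zero _ _ _
  · have hX : ∀ i : Fin 4, (X i : P4 k).IsHomogeneous 1 := fun i => isHomogeneous_X k i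
    have hq : ∀ a b c : Fin 4, (X a * (X b + X c - X a) : P4 k).IsHomogeneous 2 := by
      intro a b c
      exact (hX a).mul (((hX b).add (hX c)).sub (hX a))
    have h1 : ∀ j : Fin 4, (pderiv j f).IsHomogeneous i := by
      intro j
      have := h.pderiv (i := j)
      simpa using this
    rw [D_apply]
    have e : i + 1 + 1 = 2 + i := by ring
    rw [e]
    exact (((hq 0 1 2).mul (h1 0)).add ((hq 1 0 2).mul (h1 1))).add ((hq 2 0 1).mul (h1 2))

theorem graded : (B k).IsGraded := by
  have key : ∀ (i j : ℕ) (f g : P4 k), f.IsHomogeneous i → g.IsHomogeneous j →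
      (W k f * D k g).IsHomogeneous (i + j) := by
    intro i j f g hf hg
    rcases i with _ | i
    · have : W k f = 0 := pderiv_zero_of_deg_zero hf 3
      rw [this, zero_mul]
      exact isHomogeneous_zero _ _ _
    · have h1 : (W k f).IsHomogeneous i := by
        have := hf.pderiv (i := 3)
        rw [Nat.add_sub_cancel] at this
        exact this
      have e : i + 1 + j = i + (j + 1) := by ring
      rw [e]
      exact h1.mul (D_homog hg)
  intro i j f g hf hg
  rw [B_apply]
  apply (key i j f g hf hg).sub
  rw [mul_comm, add_comm]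
  exact key j i g f hg hf

end Q16.Loz
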