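import Pool.Agent.Q16.Loz.Example

/-!
# The rank over the Poisson centre is at most `p ^ 2`, the log-ozone group has order at least `p ^ 3`
-/

open MvPolynomial TensorProduct

noncomputable section

universe u

namespace Q16.Loz

variable {k : Type u} [Field k]

/-- The dimension of `Frac Z ⊗ M` is at most the number of elements that generate `M` up to
denominators. -/
theorem rank_frac_le {Z : Type u} [CommRing Z] [IsDomain Z] {M : Type u} [AddCommGroup M] [Module Z M]
    {ι : Type} [Fintype ι] (v : ι → M)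
    (h : ∀ f : M, ∃ s : Z, s ≠ 0 ∧ s • f ∈ Submodule.span Z (Set.range v)) :
    Module.rank (FractionRing Z) (FractionRing Z ⊗[Z] M) ≤ Fintype.card ι := by
  let T : Set (FractionRing Z ⊗[Z] M) := Set.range fun i => (1 : FractionRing Z) ⊗ₜ[Z] v i
  have hN : ∀ f ∈ Submodule.span Z (Set.range v),
      (1 : FractionRing Z) ⊗ₜ[Z] f ∈ Submodule.span (FractionRing Z) T := by
    intro f hf
    induction hf using Submodule.span_induction with
    | mem f hf =>
      obtain ⟨i, rfl⟩ := hf
      exact Submodule.subset_span ⟨i, rfl⟩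
    | zero => rw [TensorProduct.tmul_zero]; exact zero_mem _
    | add a b _ _ ha hb => rw [TensorProduct.tmul_add]; exact add_mem ha hb
    | smul c a _ ha =>
      have h1 : (1 : FractionRing Z) ⊗ₜ[Z] (c • a) = (algebraMap Z (FractionRing Z) c) •
          ((1 : FractionRing Z) ⊗ₜ[Z] a) := by
        rw [← TensorProduct.smul_tmul, TensorProduct.smul_tmul', Algebra.smul_def, mul_one,
          smul_eq_mul, mul_one]
      rw [h1]
      exact Submodule.smul_mem _ _ ha
  have htop : Submodule.span (FractionRing Z) T = ⊤ := by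
    rw [eq_top_iff]
    intro t _
    induction t using TensorProduct.induction_on with
    | zero => exact zero_mem _
    | add a b ha hb => exact add_mem (ha trivial) (hb trivial)
    | tmul q f =>
      obtain ⟨s, hs0, hsf⟩ := h f
      have hs' : algebraMap Z (FractionRing Z) s ≠ 0 := by
        intro h
        rw [← map_zero (algebraMap Z (FractionRing Z))] at h
        exact hs0 (IsFractionRing.injective Z (FractionRing Z) h)
      have h1 : q ⊗ₜ[Z] f = (q * (algebraMap Z (FractionRing Z) s)⁻¹) •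
          ((1 : FractionRing Z) ⊗ₜ[Z] (s • f)) := by
        rw [← TensorProduct.smul_tmul, TensorProduct.smul_tmul', Algebra.smul_def s, mul_one,
          smul_eq_mul, mul_assoc, inv_mul_cancel₀ hs', mul_one]
      rw [h1]
      exact Submodule.smul_mem _ _ (hN _ hsf)
  rw [← rank_top, ← htop]
  refine (rank_span_le T).trans ?_
  have h2 := Cardinal.mk_range_le_lift (f := fun i => (1 : FractionRing Z) ⊗ₜ[Z] v i)
  simpa using h2

theorem mem_center_of {f : P4 k} (h1 : D k f = 0) (h2 : W k f = 0) : f ∈ (B k).center := by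
  intro a
  rw [B_apply, h1, h2, zero_mul, zero_mul, sub_zero]

theorem pow_mem_center (p : ℕ) [CharP k p] (f : P4 k) : f ^ p ∈ (B k).center := by
  have h0 : (p : P4 k) = 0 := by
    have : (p : P4 k) = C (p : k) := (map_natCast C p).symm
    rw [this, CharP.cast_eq_zero, map_zero]
  apply mem_center_of
  · rw [Derivation.leibniz_pow, nsmul_eq_mul, h0, zero_mul]
  · rw [Derivation.leibniz_pow, nsmul_eq_mul, h0, zero_mul]

def FF (k : Type u) [Field k] : P4 k := x k * (y k - z k)
def GG (k : Type u) [Field k] : P4 k := y k * (z k - x k)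
def EE (k : Type u) [Field k] : P4 k := x k * (y k + z k - x k)

theorem FF_mem : FF k ∈ (B k).center := by
  apply mem_center_of
  · rw [FF, Derivation.leibniz, map_sub, D_x, D_y, D_z]
    simp only [smul_eq_mul]; ring
  · rw [FF, Derivation.leibniz, map_sub, W_x, W_y, W_z]; simp

theorem GG_mem : GG k ∈ (B k).center := by
  apply mem_center_of
  · rw [GG, Derivation.leibniz, map_sub, D_x, D_y, D_z]
    simp only [smul_eq_mul]; ring
  · rw [GG, Derivation.leibniz, map_sub, W_x, W_y, W_z]; simp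

theorem EE_eq : EE k = 2 * (x k * y k) - FF k - x k ^ 2 := by
  rw [EE, FF]; ring

theorem EE_sq : EE k ^ 2 = (FF k + x k ^ 2) ^ 2 + 4 * GG k * x k ^ 2 := by
  rw [EE, FF, GG]; ring

theorem EE_ne : EE k ≠ 0 := by
  intro h
  have h1 := congrArg (MvPolynomial.eval (fun _ : Fin 4 => (1 : k))) h
  simp [EE] at h1

variable (k) in
/-- The span of the monomials `x ^ i w ^ j`, `i, j < p`, over the centre. -/
def N (p : ℕ) : Submodule (B k).center (P4 k) :=
  Submodule.span (B k).center (Set.range fun ij : Fin p × Fin p =>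
    x k ^ (ij.1 : ℕ) * w k ^ (ij.2 : ℕ))

section

variable (p : ℕ) [hp : Fact p.Prime] [CharP k p]

theorem smul_mem_N {c f : P4 k} (hc : c ∈ (B k).center) (hf : f ∈ N k p) : c * f ∈ N k p := by
  have := (N k p).smul_mem ⟨c, hc⟩ hf
  rwa [Subalgebra.smul_def, smul_eq_mul] at this

theorem pow_mem_N (a b : ℕ) : x k ^ a * w k ^ b ∈ N k p := by
  have h1 : x k ^ a * w k ^ b = ((x k ^ p) ^ (a / p) * (w k ^ p) ^ (b / p)) *
      (x k ^ (a % p) * w k ^ (b % p)) := by
    rw [← pow_mul, ← pow_mul]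
    have e1 : x k ^ a = x k ^ (p * (a / p)) * x k ^ (a % p) := by
      rw [← pow_add, Nat.div_add_mod]
    have e2 : w k ^ b = w k ^ (p * (b / p)) * w k ^ (b % p) := by
      rw [← pow_add, Nat.div_add_mod]
    rw [e1, e2]; ring
  rw [h1]
  have hpos := hp.out.pos
  apply smul_mem_N
  · exact mul_mem (pow_mem (pow_mem_center p _) _) (pow_mem (pow_mem_center p _) _)
  · exact Submodule.subset_span ⟨(⟨a % p, Nat.mod_lt _ hpos⟩, ⟨b % p, Nat.mod_lt _ hpos⟩), rfl⟩

theorem one_mem_N : (1 : P4 k) ∈ N k p := by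
  have := pow_mem_N (k := k) p 0 0
  simpa using this

theorem mul_mem_N {f g : P4 k} (hf : f ∈ N k p) (hg : g ∈ N k p) : f * g ∈ N k p := by
  induction hf using Submodule.span_induction with
  | mem f hf =>
    obtain ⟨ij, rfl⟩ := hf
    induction hg using Submodule.span_induction with
    | mem g hg =>
      obtain ⟨kl, rfl⟩ := hg
      have h1 : x k ^ (ij.1 : ℕ) * w k ^ (ij.2 : ℕ) * (x k ^ (kl.1 : ℕ) * w k ^ (kl.2 : ℕ)) =
          x k ^ ((ij.1 : ℕ) + kl.1) * w k ^ ((ij.2 : ℕ) + kl.2) := by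
        rw [pow_add, pow_add]; ring
      change x k ^ (ij.1 : ℕ) * w k ^ (ij.2 : ℕ) * (x k ^ (kl.1 : ℕ) * w k ^ (kl.2 : ℕ)) ∈ _
      rw [h1]
      exact pow_mem_N p _ _
    | zero => rw [mul_zero]; exact zero_mem _
    | add a b _ _ ha hb => rw [mul_add]; exact add_mem ha hb
    | smul c a _ ha => rw [mul_smul_comm]; exact Submodule.smul_mem _ c ha
  | zero => rw [zero_mul]; exact zero_mem _
  | add a b _ _ ha hb => rw [add_mul]; exact add_mem ha hb
  | smul c a _ ha => rw [smul_mul_assoc]; exact Submodule.smul_mem _ c ha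

theorem center_le_N {f : P4 k} (hf : f ∈ (B k).center) : f ∈ N k p := by
  have := smul_mem_N p hf (one_mem_N (k := k) p)
  rwa [mul_one] at this

/-- Elements which are in `N` up to a nonzero central factor. -/
def S (f : P4 k) : Prop := ∃ s ∈ (B k).center, s ≠ 0 ∧ s * f ∈ N k p

theorem S_of_mem {f : P4 k} (hf : f ∈ N k p) : S p f :=
  ⟨1, one_mem _, one_ne_zero, by rwa [one_mul]⟩

theorem S_add {f g : P4 k} (hf : S p f) (hg : S p g) : S p (f + g) := by
  obtain ⟨s, hs, hs0, hsf⟩ := hf
  obtain ⟨t, ht, ht0, htg⟩ := hg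
  refine ⟨s * t, mul_mem hs ht, mul_ne_zero hs0 ht0, ?_⟩
  have h1 : s * t * (f + g) = t * (s * f) + s * (t * g) := by ring
  rw [h1]
  exact add_mem (smul_mem_N p ht hsf) (smul_mem_N p hs htg)

theorem S_mul {f g : P4 k} (hf : S p f) (hg : S p g) : S p (f * g) := by
  obtain ⟨s, hs, hs0, hsf⟩ := hf
  obtain ⟨t, ht, ht0, htg⟩ := hg
  refine ⟨s * t, mul_mem hs ht, mul_ne_zero hs0 ht0, ?_⟩
  have h1 : s * t * (f * g) = (s * f) * (t * g) := by ring
  rw [h1]
  exact mul_mem_N p hsf htg

theorem S_cancel {c f : P4 k} (hc : c ∈ (B k).center) (hc0 : c ≠ 0) (h : S p (c * f)) :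
    S p f := by
  obtain ⟨s, hs, hs0, hsf⟩ := h
  exact ⟨s * c, mul_mem hs hc, mul_ne_zero hs0 hc0, by rwa [mul_assoc]⟩

theorem S_center {f : P4 k} (hf : f ∈ (B k).center) : S p f := S_of_mem p (center_le_N p hf)

theorem C_mem_center (a : k) : (C a : P4 k) ∈ (B k).center := (B k).center.algebraMap_mem a

theorem x_mem_N : x k ∈ N k p := by simpa using pow_mem_N (k := k) p 1 0
theorem w_mem_N : w k ∈ N k p := by simpa using pow_mem_N (k := k) p 0 1

theorem EE_sq_mem : EE k ^ 2 ∈ N k p := by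
  rw [EE_sq]
  have hx := x_mem_N (k := k) p
  have hx2 : x k ^ 2 ∈ N k p := by rw [pow_two]; exact mul_mem_N p hx hx
  have h1 : FF k + x k ^ 2 ∈ N k p := add_mem (center_le_N p FF_mem) hx2
  have h4 : (4 : P4 k) * GG k ∈ (B k).center := by
    have : (4 : P4 k) = C 4 := by
      rw [← map_ofNat C 4]
    rw [this]
    exact mul_mem (C_mem_center 4) GG_mem
  rw [pow_two (FF k + x k ^ 2)]
  exact add_mem (mul_mem_N p h1 h1) (smul_mem_N p h4 hx2)

theorem pow_mem_N' {f : P4 k} (hf : f ∈ N k p) (m : ℕ) : f ^ m ∈ N k p := by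
  induction m with
  | zero => rw [pow_zero]; exact one_mem_N p
  | succ m ih => rw [pow_succ]; exact mul_mem_N p ih hf

theorem S_EE (hodd : p ≠ 2) : S p (EE k) := by
  obtain ⟨m, hm⟩ := hp.out.odd_of_ne_two hodd
  refine ⟨(EE k ^ p) ^ 2, pow_mem (pow_mem_center p _) 2, pow_ne_zero _ (pow_ne_zero _ EE_ne), ?_⟩
  have h1 : (EE k ^ p) ^ 2 * EE k = EE k ^ p * (EE k ^ 2) ^ (m + 1) := by
    rw [← pow_mul, ← pow_mul, ← pow_succ, ← pow_add]
    congr 1
    omega
  rw [h1]
  exact smul_mem_N p (pow_mem_center p _) (pow_mem_N' p (EE_sq_mem p) _)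

theorem two_ne (hodd : p ≠ 2) : (2 : k) ≠ 0 := by
  intro h
  have h1 : ((2 : ℕ) : k) = 0 := by exact_mod_cast h
  rw [CharP.cast_eq_zero_iff k p] at h1
  exact hodd ((Nat.prime_dvd_prime_iff_eq hp.out Nat.prime_two).1 h1)

theorem S_y (hodd : p ≠ 2) : S p (y k) := by
  have hx := x_mem_N (k := k) p
  have h1 : S p (2 * (x k * y k)) := by
    have : 2 * (x k * y k) = EE k + (FF k + x k ^ 2) := by rw [EE_eq]; ring
    rw [this]
    exact S_add p (S_EE p hodd) (S_add p (S_center p FF_mem) (S_of_mem p (pow_mem_N' p hx 2)))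
  have h2 : S p (x k * y k) := by
    have e : x k * y k = C (2⁻¹ : k) * (2 * (x k * y k)) := by
      rw [← mul_assoc]
      have : (C (2⁻¹ : k) : P4 k) * 2 = 1 := by
        have e2 : (2 : P4 k) = C 2 := by rw [← map_ofNat C 2]
        rw [e2, ← map_mul, inv_mul_cancel₀ (two_ne p hodd), map_one]
      rw [this, one_mul]
    rw [e]
    exact S_mul p (S_center p (C_mem_center _)) h1
  apply S_cancel p (pow_mem_center p (x k)) (pow_ne_zero _ (X_ne_zero 0))
  have h3 : x k ^ p * y k = x k ^ (p - 1) * (x k * y k) := by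
    obtain ⟨q, hq⟩ := Nat.exists_eq_succ_of_ne_zero hp.out.ne_zero
    rw [hq, Nat.succ_sub_one, pow_succ]; ring
  rw [h3]
  exact S_mul p (S_of_mem p (pow_mem_N' p hx _)) h2

theorem S_z (hodd : p ≠ 2) : S p (z k) := by
  have hx := x_mem_N (k := k) p
  have h2 : S p (x k * z k) := by
    have e : x k * z k = x k * y k + (C (-1) * FF k) := by
      rw [map_neg, map_one, FF]; ring
    rw [e]
    exact S_add p (S_mul p (S_of_mem p hx) (S_y p hodd))
      (S_center p (mul_mem (C_mem_center _) FF_mem))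
  apply S_cancel p (pow_mem_center p (x k)) (pow_ne_zero _ (X_ne_zero 0))
  have h3 : x k ^ p * z k = x k ^ (p - 1) * (x k * z k) := by
    obtain ⟨q, hq⟩ := Nat.exists_eq_succ_of_ne_zero hp.out.ne_zero
    rw [hq, Nat.succ_sub_one, pow_succ]; ring
  rw [h3]
  exact S_mul p (S_of_mem p (pow_mem_N' p hx _)) h2

theorem S_all (hodd : p ≠ 2) (f : P4 k) : S p f := by
  induction f using MvPolynomial.induction_on with
  | C a => exact S_center p (C_mem_center a)
  | add f g hf hg => exact S_add p hf hg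
  | mul_X f i hf =>
    apply S_mul p hf
    fin_cases i
    · exact S_of_mem p (x_mem_N p)
    · exact S_y p hodd
    · exact S_z p hodd
    · exact S_of_mem p (w_mem_N p)

theorem rank_le (hodd : p ≠ 2) : (B k).rankOverCenter ≤ ((p ^ 2 : ℕ) : Cardinal) := by
  have h := rank_frac_le (Z := (B k).center) (fun ij : Fin p × Fin p =>
    x k ^ (ij.1 : ℕ) * w k ^ (ij.2 : ℕ)) (by
    intro f
    obtain ⟨s, hs, hs0, hsf⟩ := S_all (k := k) p hodd f
    exact ⟨⟨s, hs⟩, fun e => hs0 (congrArg Subtype.val e), hsf⟩)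
  refine h.trans (le_of_eq ?_)
  simp [pow_two]

/-! ### The log-ozone group -/

theorem logOzone_x : (B k).IsLogOzone ((y k + z k - x k) • W k) (x k) := by
  have h : ∀ a, x k * (((y k + z k - x k) • W k) a) = (B k).br a (x k) := by
    intro a
    rw [B_apply, D_x, W_x, Derivation.smul_apply, smul_eq_mul]; ring
  exact ⟨X_ne_zero 0, fun a => Dvd.intro _ (h a), h⟩

theorem logOzone_y : (B k).IsLogOzone ((x k + z k - y k) • W k) (y k) := by
  have h : ∀ a, y k * (((x k + z k - y k) • W k) a) = (B k).br a (y k) := by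
    intro a
    rw [B_apply, D_y, W_y, Derivation.smul_apply, smul_eq_mul]; ring
  exact ⟨X_ne_zero 1, fun a => Dvd.intro _ (h a), h⟩

theorem logOzone_z : (B k).IsLogOzone ((x k + y k - z k) • W k) (z k) := by
  have h : ∀ a, z k * (((x k + y k - z k) • W k) a) = (B k).br a (z k) := by
    intro a
    rw [B_apply, D_z, W_z, Derivation.smul_apply, smul_eq_mul]; ring
  exact ⟨X_ne_zero 2, fun a => Dvd.intro _ (h a), h⟩

/-- The combination of the three log-ozone derivations. -/
def comb (k : Type u) [Field k] (a b c : ℕ) : Derivation k (P4 k) (P4 k) :=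
  a • ((y k + z k - x k) • W k) + b • ((x k + z k - y k) • W k) + c • ((x k + y k - z k) • W k)

theorem comb_mem (a b c : ℕ) : comb k a b c ∈ (B k).loz := by
  have hx : ((y k + z k - x k) • W k) ∈ (B k).loz :=
    AddSubgroup.subset_closure (Exists.intro (x k) logOzone_x)
  have hy : ((x k + z k - y k) • W k) ∈ (B k).loz :=
    AddSubgroup.subset_closure (Exists.intro (y k) logOzone_y)
  have hz : ((x k + y k - z k) • W k) ∈ (B k).loz :=
    AddSubgroup.subset_closure (Exists.intro (z k) logOzone_z)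
  exact add_mem (add_mem (nsmul_mem hx a) (nsmul_mem hy b)) (nsmul_mem hz c)

theorem comb_w (a b c : ℕ) : comb k a b c (w k) = a * (y k + z k - x k) + b * (x k + z k - y k) +
    c * (x k + y k - z k) := by
  simp only [comb, Derivation.add_apply, Derivation.smul_apply, W_w, smul_eq_mul, mul_one,
    nsmul_eq_mul]

theorem comb_injective (hodd : p ≠ 2) {a b c a' b' c' : Fin p}
    (h : comb k a b c = comb k a' b' c') : a = a' ∧ b = b' ∧ c = c' := by
  have h1 := congrArg (fun d : Derivation k (P4 k) (P4 k) => d (w k)) h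
  simp only [comb_w] at h1
  have h2 := two_ne (k := k) p hodd
  have key : ∀ u v : Fin p, ((u : ℕ) : k) = ((v : ℕ) : k) ∨ (2 : k) = 0 → u = v := by
    intro u v huv
    have h3 : (((u : ℕ) : k)) = ((v : ℕ) : k) := huv.resolve_right h2
    have h4 := (CharP.natCast_eq_natCast k p).1 h3
    rw [Nat.ModEq, Nat.mod_eq_of_lt u.2, Nat.mod_eq_of_lt v.2] at h4
    exact Fin.ext h4
  refine ⟨key _ _ ?_, key _ _ ?_, key _ _ ?_⟩
  · have e := congrArg (MvPolynomial.eval (![0, 1, 1, 0] : Fin 4 → k)) h1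
    simp at e
    ring_nf at e
    simpa using e
  · have e := congrArg (MvPolynomial.eval (![1, 0, 1, 0] : Fin 4 → k)) h1
    simp at e
    ring_nf at e
    simpa using e
  · have e := congrArg (MvPolynomial.eval (![1, 1, 0, 0] : Fin 4 → k)) h1
    simp at e
    ring_nf at e
    simpa using e

theorem le_card_loz (hodd : p ≠ 2) : ((p ^ 3 : ℕ) : Cardinal) ≤ Cardinal.mk (B k).loz := by
  let g : Fin p × Fin p × Fin p → (B k).loz := fun t => ⟨comb k t.1 t.2.1 t.2.2, comb_mem _ _ _⟩
  have hg : Function.Injective g := by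
    rintro ⟨a, b, c⟩ ⟨a', b', c'⟩ h
    have h1 := comb_injective (k := k) p hodd (congrArg Subtype.val h)
    obtain ⟨rfl, rfl, rfl⟩ := h1
    rfl
  have h1 := Cardinal.lift_mk_le_lift_mk_of_injective hg
  have h2 : Cardinal.lift.{u} (Cardinal.mk (Fin p × Fin p × Fin p)) = ((p ^ 3 : ℕ) : Cardinal.{u}) := by
    simp [pow_succ, mul_assoc]
  rw [h2] at h1
  simpa using h1

end

end Q16.Loz
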